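import Pool.Agent.H85.WSM.Key

/-!
# The doubling inequality for a log-concave law
-/

set_option autoImplicit false

open MeasureTheory Set
open scoped ENNReal Pointwise

namespace Pool.Agent.H85.WSM

variable {n : ℕ}

/-- Tonelli for the smoothing in both variables. -/
lemma smooth_two (μ : Measure (Fin n → ℝ)) [SFinite μ] (ε : ℝ)
    {H : (Fin n → ℝ) → (Fin n → ℝ) → ℝ≥0∞} (hH : Measurable (Function.uncurry H)) :
    ∫⁻ x, ∫⁻ y, sm μ ε x * (sm μ ε y * H x y)
      = ∫⁻ u, (∫⁻ x in Metric.closedBall u ε,
          (∫⁻ v, (∫⁻ y in Metric.closedBall v ε, H x y) ∂μ)) ∂μ := by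
  have hsm := sm_measurable μ ε
  have hHx : ∀ x, Measurable (H x) := fun x => hH.comp measurable_prodMk_left
  have h1 : ∀ x, ∫⁻ y, sm μ ε x * (sm μ ε y * H x y)
      = sm μ ε x * ∫⁻ v, (∫⁻ y in Metric.closedBall v ε, H x y) ∂μ := by
    intro x
    rw [lintegral_const_mul (f := fun y => sm μ ε y * H x y) _ (hsm.mul (hHx x)),
      smooth_tonelli μ ε (hHx x)]
  rw [lintegral_congr h1]
  refine smooth_tonelli μ ε ?_
  have h2 : (fun x => ∫⁻ v, (∫⁻ y in Metric.closedBall v ε, H x y) ∂μ)
      = fun x => ∫⁻ y, sm μ ε y * H x y := by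
    funext x
    rw [smooth_tonelli μ ε (hHx x)]
  rw [h2]
  exact ((hsm.comp measurable_snd).mul hH).lintegral_prod_right'

/-- The doubling inequality. -/
theorem double {μ : Measure (Fin n → ℝ)} [IsProbabilityMeasure μ] (hμ : LogConcave μ)
    {N : (Fin n → ℝ) → ℝ} (hN : SemiN N) {a δ p : ℝ} (ha : 0 ≤ a) (hδ : 0 < δ) (hp : 0 ≤ p) :
    (∫⁻ x, ENNReal.ofReal (N x ^ p) ∂μ) * μ {x | N x ≤ a}
      ≤ ∫⁻ u, ENNReal.ofReal ((2 * N u + 3 * a + 6 * δ) ^ p)
          * μ {v | N (u - v) ≤ 2 * a + 4 * δ} ∂μ := by
  obtain ⟨c, hc, hb⟩ := hN.exists_bound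
  set ε : ℝ := δ / c with hεdef
  have hε : 0 < ε := div_pos hδ hc
  have hball : ∀ x u : Fin n → ℝ, x ∈ Metric.closedBall u ε → N (x - u) ≤ δ := by
    intro x u hx
    rw [Metric.mem_closedBall, dist_eq_norm] at hx
    calc N (x - u) ≤ c * ‖x - u‖ := hb _
      _ ≤ c * ε := mul_le_mul_of_nonneg_left hx hc.le
      _ = δ := by rw [hεdef]; field_simp
  have hNm := hN.measurable
  set V : ℝ≥0∞ := volume (Metric.closedBall (0 : Fin n → ℝ) ε) with hV
  have hVu : ∀ u : Fin n → ℝ, volume (Metric.closedBall u ε) = V := fun u =>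
    Measure.addHaar_closedBall_center volume u ε
  have hV0 : V ≠ 0 := (Metric.measure_closedBall_pos volume _ hε).ne'
  have hVt : V ≠ ∞ := measure_closedBall_lt_top.ne
  set G : (Fin n → ℝ) → ℝ≥0∞ := fun s => ENNReal.ofReal ((N s + a + 2 * δ) ^ p) with hG
  have hGm : Measurable G :=
    (((hNm.add_const a).add_const (2 * δ)).pow_const p).ennreal_ofReal
  have hA : MeasurableSet {y : Fin n → ℝ | N y ≤ a + δ} := measurableSet_le hNm measurable_const
  have hD : MeasurableSet {q : (Fin n → ℝ) × (Fin n → ℝ) | N (q.1 - q.2) ≤ 2 * (a + δ)} :=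
    measurableSet_le (hNm.comp (measurable_fst.sub measurable_snd)) measurable_const
  have hkey := key_smooth hμ hε.le hN (a + δ) hGm
  have hH1 : Measurable (Function.uncurry fun (x y : Fin n → ℝ) =>
      G (x + y) * {y | N y ≤ a + δ}.indicator 1 y) :=
    (hGm.comp (measurable_fst.add measurable_snd)).mul
      ((measurable_one.indicator hA).comp measurable_snd)
  have hH2 : Measurable (Function.uncurry fun (x y : Fin n → ℝ) =>
      G (x + y) * {q : (Fin n → ℝ) × (Fin n → ℝ) | N (q.1 - q.2) ≤ 2 * (a + δ)}.indicator 1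
        (x, y)) :=
    (hGm.comp (measurable_fst.add measurable_snd)).mul (measurable_one.indicator hD)
  rw [smooth_two μ ε hH1, smooth_two μ ε hH2] at hkey
  -- lower bound
  have hlow : V * (V * ((∫⁻ x, ENNReal.ofReal (N x ^ p) ∂μ) * μ {x | N x ≤ a}))
      ≤ ∫⁻ u, (∫⁻ x in Metric.closedBall u ε, (∫⁻ v, (∫⁻ y in Metric.closedBall v ε,
          G (x + y) * {y | N y ≤ a + δ}.indicator 1 y) ∂μ)) ∂μ := by
    have hin : ∀ u x : Fin n → ℝ, x ∈ Metric.closedBall u ε →
        V * (ENNReal.ofReal (N u ^ p) * μ {x | N x ≤ a})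
        ≤ ∫⁻ v, (∫⁻ y in Metric.closedBall v ε,
          G (x + y) * {y | N y ≤ a + δ}.indicator 1 y) ∂μ := by
      intro u x hx
      have hv : ∀ v : Fin n → ℝ, (V * ENNReal.ofReal (N u ^ p)) * {v | N v ≤ a}.indicator 1 v
          ≤ ∫⁻ y in Metric.closedBall v ε, G (x + y) * {y | N y ≤ a + δ}.indicator 1 y := by
        intro v
        by_cases hva : N v ≤ a
        swap
        · rw [indicator_of_notMem (show v ∉ {v | N v ≤ a} from hva), mul_zero]
          exact zero_le
        rw [indicator_of_mem (show v ∈ {v | N v ≤ a} from hva), Pi.one_apply, mul_one]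
        calc V * ENNReal.ofReal (N u ^ p)
            = ∫⁻ y in Metric.closedBall v ε, ENNReal.ofReal (N u ^ p) := by
              rw [setLIntegral_const, hVu, mul_comm]
          _ ≤ _ := by
              refine setLIntegral_mono' Metric.isClosed_closedBall.measurableSet fun y hy => ?_
              have h1 := hball x u hx
              have h2 := hball y v hy
              have h3 : N y ≤ a + δ := by
                have := hN.le_add_sub y v
                linarith
              rw [indicator_of_mem (show y ∈ {y | N y ≤ a + δ} from h3), Pi.one_apply, mul_one]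
              refine ENNReal.ofReal_le_ofReal ?_
              refine Real.rpow_le_rpow (hN.nonneg u) ?_ hp
              have h4 : N u ≤ N (x + y) + N (u - (x + y)) := hN.le_add_sub u (x + y)
              have h5 : N (u - (x + y)) ≤ N (u - x) + N y := by
                have := hN.sub_le (u - x) y
                rwa [sub_sub] at this
              have h6 : N (u - x) ≤ δ := by rw [hN.sub_comm]; exact h1
              linarith
      calc V * (ENNReal.ofReal (N u ^ p) * μ {x | N x ≤ a})
          = ∫⁻ v, (V * ENNReal.ofReal (N u ^ p)) * {v | N v ≤ a}.indicator 1 v ∂μ := by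
            rw [lintegral_const_mul _ (measurable_one.indicator
              (measurableSet_le hNm measurable_const)),
              lintegral_indicator_one (measurableSet_le hNm measurable_const), mul_assoc]
        _ ≤ _ := lintegral_mono hv
    calc V * (V * ((∫⁻ x, ENNReal.ofReal (N x ^ p) ∂μ) * μ {x | N x ≤ a}))
        = ∫⁻ u, V * (V * (ENNReal.ofReal (N u ^ p) * μ {x | N x ≤ a})) ∂μ := by
          rw [lintegral_const_mul, lintegral_const_mul, lintegral_mul_const]
          · exact (hNm.pow_const p).ennreal_ofReal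
          · exact (hNm.pow_const p).ennreal_ofReal.mul_const _
          · exact ((hNm.pow_const p).ennreal_ofReal.mul_const _).const_mul _
      _ ≤ _ := by
          refine lintegral_mono fun u => ?_
          calc V * (V * (ENNReal.ofReal (N u ^ p) * μ {x | N x ≤ a}))
              = ∫⁻ x in Metric.closedBall u ε,
                  V * (ENNReal.ofReal (N u ^ p) * μ {x | N x ≤ a}) := by
                rw [setLIntegral_const, hVu]
                ring
            _ ≤ _ := setLIntegral_mono' Metric.isClosed_closedBall.measurableSet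
                fun x hx => hin u x hx
  -- upper bound
  have hup : ∫⁻ u, (∫⁻ x in Metric.closedBall u ε, (∫⁻ v, (∫⁻ y in Metric.closedBall v ε,
          G (x + y) * {q : (Fin n → ℝ) × (Fin n → ℝ) | N (q.1 - q.2) ≤ 2 * (a + δ)}.indicator 1
            (x, y)) ∂μ)) ∂μ
      ≤ V * (V * ∫⁻ u, ENNReal.ofReal ((2 * N u + 3 * a + 6 * δ) ^ p)
          * μ {v | N (u - v) ≤ 2 * a + 4 * δ} ∂μ) := by
    have hin : ∀ u x : Fin n → ℝ, x ∈ Metric.closedBall u ε →
        ∫⁻ v, (∫⁻ y in Metric.closedBall v ε, G (x + y) *
          {q : (Fin n → ℝ) × (Fin n → ℝ) | N (q.1 - q.2) ≤ 2 * (a + δ)}.indicator 1 (x, y)) ∂μ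
        ≤ V * (ENNReal.ofReal ((2 * N u + 3 * a + 6 * δ) ^ p)
          * μ {v | N (u - v) ≤ 2 * a + 4 * δ}) := by
      intro u x hx
      have hv : ∀ v : Fin n → ℝ, ∫⁻ y in Metric.closedBall v ε, G (x + y) *
          {q : (Fin n → ℝ) × (Fin n → ℝ) | N (q.1 - q.2) ≤ 2 * (a + δ)}.indicator 1 (x, y)
          ≤ (V * ENNReal.ofReal ((2 * N u + 3 * a + 6 * δ) ^ p)) *
            {v | N (u - v) ≤ 2 * a + 4 * δ}.indicator 1 v := by
        intro v
        calc ∫⁻ y in Metric.closedBall v ε, G (x + y) *
              {q : (Fin n → ℝ) × (Fin n → ℝ) | N (q.1 - q.2) ≤ 2 * (a + δ)}.indicator 1 (x, y)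
            ≤ ∫⁻ y in Metric.closedBall v ε, ENNReal.ofReal ((2 * N u + 3 * a + 6 * δ) ^ p) *
              {v | N (u - v) ≤ 2 * a + 4 * δ}.indicator 1 v := by
              refine setLIntegral_mono' Metric.isClosed_closedBall.measurableSet fun y hy => ?_
              have h1 := hball x u hx
              have h2 := hball y v hy
              by_cases hxy : N (x - y) ≤ 2 * (a + δ)
              swap
              · rw [indicator_of_notMem (show (x, y) ∉ {q : (Fin n → ℝ) × (Fin n → ℝ) |
                  N (q.1 - q.2) ≤ 2 * (a + δ)} from hxy), mul_zero]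
                exact zero_le
              have h3 : N (u - v) ≤ 2 * a + 4 * δ := by
                have e : u - v = (u - x) + ((x - y) + (y - v)) := by abel
                have h5 := hN.add (u - x) ((x - y) + (y - v))
                have h6 := hN.add (x - y) (y - v)
                rw [← e] at h5
                have h7 : N (u - x) ≤ δ := by rw [hN.sub_comm]; exact h1
                linarith
              rw [indicator_of_mem (show (x, y) ∈ {q : (Fin n → ℝ) × (Fin n → ℝ) |
                N (q.1 - q.2) ≤ 2 * (a + δ)} from hxy),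
                indicator_of_mem (show v ∈ {v | N (u - v) ≤ 2 * a + 4 * δ} from h3)]
              simp only [Pi.one_apply, mul_one]
              refine ENNReal.ofReal_le_ofReal ?_
              have h0 := hN.nonneg (x + y)
              refine Real.rpow_le_rpow (by linarith) ?_ hp
              have h4 : N (x + y) ≤ 2 * N x + N (x - y) := by
                have e : x + y = (2 : ℝ) • x - (x - y) := by
                  rw [two_smul]; abel
                have h5 := hN.sub_le ((2 : ℝ) • x) (x - y)
                rw [← e, hN.hom] at h5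
                norm_num at h5
                exact h5
              have h6 : N x ≤ N u + N (x - u) := hN.le_add_sub x u
              linarith
          _ = (V * ENNReal.ofReal ((2 * N u + 3 * a + 6 * δ) ^ p)) *
            {v | N (u - v) ≤ 2 * a + 4 * δ}.indicator 1 v := by
              rw [setLIntegral_const, hVu]
              ring
      have hDv : MeasurableSet {v : Fin n → ℝ | N (u - v) ≤ 2 * a + 4 * δ} :=
        measurableSet_le (hNm.comp (measurable_const.sub measurable_id)) measurable_const
      calc _ ≤ ∫⁻ v, (V * ENNReal.ofReal ((2 * N u + 3 * a + 6 * δ) ^ p)) *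
            {v | N (u - v) ≤ 2 * a + 4 * δ}.indicator 1 v ∂μ := lintegral_mono hv
        _ = _ := by
            rw [lintegral_const_mul _ (measurable_one.indicator hDv),
              lintegral_indicator_one hDv, mul_assoc]
    calc _ ≤ ∫⁻ u, V * (V * (ENNReal.ofReal ((2 * N u + 3 * a + 6 * δ) ^ p)
          * μ {v | N (u - v) ≤ 2 * a + 4 * δ})) ∂μ := by
          refine lintegral_mono fun u => ?_
          calc _ ≤ ∫⁻ x in Metric.closedBall u ε,
                  V * (ENNReal.ofReal ((2 * N u + 3 * a + 6 * δ) ^ p)
                  * μ {v | N (u - v) ≤ 2 * a + 4 * δ}) :=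
                setLIntegral_mono' Metric.isClosed_closedBall.measurableSet
                  fun x hx => hin u x hx
            _ = _ := by
                rw [setLIntegral_const, hVu]
                ring
      _ = _ := by
          rw [lintegral_const_mul' _ _ hVt, lintegral_const_mul' _ _ hVt]
  have hall := le_trans hlow (le_trans hkey hup)
  exact (ENNReal.mul_le_mul_iff_right hV0 hVt).1 ((ENNReal.mul_le_mul_iff_right hV0 hVt).1 hall)

end Pool.Agent.H85.WSM
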