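import Pool.Agent.H85.WSM.PL

/-!
# The key inequality for sums of two independent copies

For a log-concave law `μ` on `ℝⁿ`, a norm `N`, and independent copies `X₁`, `X₂`, we compare
`{N X₂ ≤ a}` with `{N (X₁ - X₂) ≤ 2 a}` on every event given by `X₁ + X₂`.  The law is smoothed by
small cubes, so no density is needed.
-/

set_option autoImplicit false

open MeasureTheory Set
open scoped ENNReal Pointwise

namespace Pool.Agent.H85.WSM

variable {n : ℕ}

/-- Log-concavity of a measure on `ℝⁿ`, tested on nonempty compact sets. -/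
def LogConcave (μ : Measure (Fin n → ℝ)) : Prop :=
  ∀ A B : Set (Fin n → ℝ), IsCompact A → IsCompact B → A.Nonempty → B.Nonempty →
    ∀ t : ℝ, 0 ≤ t → t ≤ 1 → μ A ^ t * μ B ^ (1 - t) ≤ μ (t • A + (1 - t) • B)

/-- The smoothed density: the mass of the cube of radius `ε` about `x`. -/
noncomputable def sm (μ : Measure (Fin n → ℝ)) (ε : ℝ) (x : Fin n → ℝ) : ℝ≥0∞ :=
  μ (Metric.closedBall x ε)

lemma measurableSet_dist_le (ε : ℝ) :
    MeasurableSet {q : (Fin n → ℝ) × (Fin n → ℝ) | dist q.2 q.1 ≤ ε} :=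
  measurableSet_le (measurable_snd.dist measurable_fst) measurable_const

lemma sm_measurable (μ : Measure (Fin n → ℝ)) [SFinite μ] (ε : ℝ) : Measurable (sm μ ε) := by
  have h := measurable_measure_prodMk_left (ν := μ) (measurableSet_dist_le (n := n) ε)
  exact h

lemma sm_lc {μ : Measure (Fin n → ℝ)} (hμ : LogConcave μ) {ε : ℝ} (hε : 0 ≤ ε)
    (x y : Fin n → ℝ) : sm μ ε x * sm μ ε y ≤ sm μ ε ((1 / 2 : ℝ) • (x + y)) ^ 2 := by
  have h := hμ (Metric.closedBall x ε) (Metric.closedBall y ε) (isCompact_closedBall _ _)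
    (isCompact_closedBall _ _) ⟨x, Metric.mem_closedBall_self hε⟩
    ⟨y, Metric.mem_closedBall_self hε⟩ (1 / 2) (by norm_num) (by norm_num)
  have hsub : (1 / 2 : ℝ) • Metric.closedBall x ε + (1 - 1 / 2 : ℝ) • Metric.closedBall y ε
      ⊆ Metric.closedBall ((1 / 2 : ℝ) • (x + y)) ε := by
    rintro z ⟨z1, ⟨a, ha, rfl⟩, z2, ⟨b, hb, rfl⟩, rfl⟩
    rw [Metric.mem_closedBall, dist_eq_norm] at ha hb ⊢
    have e : (fun x => (1 / 2 : ℝ) • x) a + (fun x => (1 - 1 / 2 : ℝ) • x) b
        - (1 / 2 : ℝ) • (x + y) = (1 / 2 : ℝ) • (a - x) + (1 / 2 : ℝ) • (b - y) := by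
      simp only
      norm_num
      module
    calc ‖(fun x => (1 / 2 : ℝ) • x) a + (fun x => (1 - 1 / 2 : ℝ) • x) b
        - (1 / 2 : ℝ) • (x + y)‖ = ‖(1 / 2 : ℝ) • (a - x) + (1 / 2 : ℝ) • (b - y)‖ := by rw [e]
      _ ≤ ‖(1 / 2 : ℝ) • (a - x)‖ + ‖(1 / 2 : ℝ) • (b - y)‖ := norm_add_le _ _
      _ = (1 / 2) * ‖a - x‖ + (1 / 2) * ‖b - y‖ := by
        rw [norm_smul, norm_smul]; norm_num
      _ ≤ ε := by linarith
  have h1 : μ (Metric.closedBall x ε) ^ (1 / 2 : ℝ) * μ (Metric.closedBall y ε) ^ (1 / 2 : ℝ)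
      ≤ sm μ ε ((1 / 2 : ℝ) • (x + y)) := by
    have e : (1 - 1 / 2 : ℝ) = 1 / 2 := by norm_num
    rw [e] at h hsub
    exact le_trans h (measure_mono hsub)
  calc sm μ ε x * sm μ ε y
      = (μ (Metric.closedBall x ε) ^ (1 / 2 : ℝ) * μ (Metric.closedBall y ε) ^ (1 / 2 : ℝ)) ^ 2 := by
        rw [mul_pow, ← ENNReal.rpow_natCast, ← ENNReal.rpow_natCast, ← ENNReal.rpow_mul,
          ← ENNReal.rpow_mul]
        norm_num [sm]
    _ ≤ _ := pow_le_pow_left₀ zero_le h1 2

/-- The properties of a seminorm, as in the frozen statement. -/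
structure SemiN (N : (Fin n → ℝ) → ℝ) : Prop where
  add : ∀ x y, N (x + y) ≤ N x + N y
  hom : ∀ (c : ℝ) x, N (c • x) = |c| * N x

namespace SemiN

variable {N : (Fin n → ℝ) → ℝ}

lemma zero (h : SemiN N) : N 0 = 0 := by
  have := h.hom 0 0
  simpa using this

lemma neg (h : SemiN N) (x : Fin n → ℝ) : N (-x) = N x := by
  have := h.hom (-1) x
  simpa using this

lemma nonneg (h : SemiN N) (x : Fin n → ℝ) : 0 ≤ N x := by
  have h1 := h.add x (-x)
  rw [add_neg_cancel, h.zero, h.neg] at h1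
  linarith

lemma sub_le (h : SemiN N) (x y : Fin n → ℝ) : N (x - y) ≤ N x + N y := by
  have := h.add x (-y)
  rwa [h.neg, ← sub_eq_add_neg] at this

lemma sub_comm (h : SemiN N) (x y : Fin n → ℝ) : N (x - y) = N (y - x) := by
  rw [← h.neg (x - y), neg_sub]

lemma le_add_sub (h : SemiN N) (x y : Fin n → ℝ) : N x ≤ N y + N (x - y) := by
  have := h.add y (x - y)
  rwa [add_sub_cancel] at this

lemma sum_le (h : SemiN N) (s : Finset (Fin n)) (g : Fin n → Fin n → ℝ) :
    N (∑ i ∈ s, g i) ≤ ∑ i ∈ s, N (g i) := by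
  classical
  induction s using Finset.induction_on with
  | empty => simp [h.zero]
  | insert i s hi ih =>
    rw [Finset.sum_insert hi, Finset.sum_insert hi]
    exact le_trans (h.add _ _) (by linarith)

lemma exists_bound (h : SemiN N) : ∃ c : ℝ, 0 < c ∧ ∀ x, N x ≤ c * ‖x‖ := by
  classical
  refine ⟨1 + ∑ i, N (Pi.single i 1), ?_, fun x => ?_⟩
  · have : 0 ≤ ∑ i, N (Pi.single i (1 : ℝ)) := Finset.sum_nonneg fun i _ => h.nonneg _
    linarith
  · have e : x = ∑ i, x i • (Pi.single i (1 : ℝ) : Fin n → ℝ) := by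
      funext j
      simp [Finset.sum_apply, Pi.single_apply]
    have h1 : N x ≤ ∑ i, N (x i • (Pi.single i (1 : ℝ) : Fin n → ℝ)) := by
      conv_lhs => rw [e]
      exact h.sum_le _ _
    have h2 : ∑ i, N (x i • (Pi.single i (1 : ℝ) : Fin n → ℝ))
        ≤ ∑ i, ‖x‖ * N (Pi.single i (1 : ℝ)) := by
      refine Finset.sum_le_sum fun i _ => ?_
      rw [h.hom]
      exact mul_le_mul_of_nonneg_right (norm_le_pi_norm x i) (h.nonneg _)
    rw [← Finset.mul_sum] at h2
    have h3 : 0 ≤ ‖x‖ := norm_nonneg x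
    nlinarith

lemma continuous (h : SemiN N) : Continuous N := by
  obtain ⟨c, hc, hb⟩ := h.exists_bound
  have : LipschitzWith ⟨c, hc.le⟩ N := by
    refine LipschitzWith.of_dist_le_mul fun x y => ?_
    rw [Real.dist_eq, dist_eq_norm]
    have h1 := h.le_add_sub x y
    have h2 := h.le_add_sub y x
    rw [h.sub_comm y x] at h2
    have h3 := hb (x - y)
    have : |N x - N y| ≤ c * ‖x - y‖ := by
      rw [abs_le]
      constructor <;> linarith
    exact this
  exact this.continuous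

lemma measurable (h : SemiN N) : Measurable N := h.continuous.measurable

end SemiN

/-- The conditional inequality on the fibre of the sum. -/
lemma fibre {μ : Measure (Fin n → ℝ)} [SFinite μ] (hμ : LogConcave μ) {ε : ℝ} (hε : 0 ≤ ε)
    {N : (Fin n → ℝ) → ℝ} (hN : SemiN N) (a : ℝ) (s : Fin n → ℝ) :
    ∫⁻ y, sm μ ε (s - y) * sm μ ε y * {y | N y ≤ a}.indicator 1 y
      ≤ ∫⁻ y, sm μ ε (s - y) * sm μ ε y * {y | N (s - y - y) ≤ 2 * a}.indicator 1 y := by
  set u : (Fin n → ℝ) → ℝ≥0∞ := fun y =>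
    sm μ ε (s - y) * sm μ ε y * {y | N y ≤ a}.indicator 1 y with hu
  set v : (Fin n → ℝ) → ℝ≥0∞ := fun y =>
    sm μ ε (s - y) * sm μ ε y * {y | N (s - y) ≤ a}.indicator 1 y with hv
  set w : (Fin n → ℝ) → ℝ≥0∞ := fun y =>
    sm μ ε (s - y) * sm μ ε y * {y | N (s - y - y) ≤ 2 * a}.indicator 1 y with hw
  have hNm := hN.measurable
  have hsm := sm_measurable μ ε
  have hsub : Measurable (fun y : Fin n → ℝ => s - y) := measurable_const.sub measurable_id
  have hum : Measurable u := by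
    refine ((hsm.comp hsub).mul hsm).mul (measurable_one.indicator ?_)
    exact measurableSet_le hNm measurable_const
  have hvm : Measurable v := by
    refine ((hsm.comp hsub).mul hsm).mul (measurable_one.indicator ?_)
    exact measurableSet_le (hNm.comp hsub) measurable_const
  have hwm : Measurable w := by
    refine ((hsm.comp hsub).mul hsm).mul (measurable_one.indicator ?_)
    exact measurableSet_le (hNm.comp (hsub.sub measurable_id)) measurable_const
  have huv : ∫⁻ y, v y = ∫⁻ y, u y := by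
    rw [← lintegral_sub_left_eq_self v s]
    refine lintegral_congr fun y => ?_
    simp only [hv, hu, sub_sub_cancel]
    rw [mul_comm (sm μ ε y)]
    congr 1
    by_cases h : N y ≤ a
    · rw [indicator_of_mem (show s - y ∈ {y | N (s - y) ≤ a} by
        simpa [sub_sub_cancel] using h), indicator_of_mem (show y ∈ {y | N y ≤ a} from h)]
      rfl
    · rw [indicator_of_notMem (show s - y ∉ {y | N (s - y) ≤ a} by
        simpa [sub_sub_cancel] using h), indicator_of_notMem (show y ∉ {y | N y ≤ a} from h)]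
  have hpl := pl n hum hvm hwm (by
    intro x y
    by_cases hx : N x ≤ a
    swap
    · simp [hu, indicator_of_notMem (show x ∉ {y | N y ≤ a} from hx)]
    by_cases hy : N (s - y) ≤ a
    swap
    · simp [hv, indicator_of_notMem (show y ∉ {y | N (s - y) ≤ a} from hy)]
    have hz : (1 / 2 : ℝ) • (x + y) ∈ {y | N (s - y - y) ≤ 2 * a} := by
      have e : s - (1 / 2 : ℝ) • (x + y) - (1 / 2 : ℝ) • (x + y) = (s - y) - x := by
        module
      show N (s - (1 / 2 : ℝ) • (x + y) - (1 / 2 : ℝ) • (x + y)) ≤ 2 * a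
      rw [e]
      have := hN.sub_le (s - y) x
      linarith
    simp only [hu, hv, hw]
    rw [indicator_of_mem (show x ∈ {y | N y ≤ a} from hx),
      indicator_of_mem (show y ∈ {y | N (s - y) ≤ a} from hy), indicator_of_mem hz]
    simp only [Pi.one_apply, mul_one]
    have h1 := sm_lc hμ hε x y
    have h2 := sm_lc hμ hε (s - x) (s - y)
    have e : (1 / 2 : ℝ) • (s - x + (s - y)) = s - (1 / 2 : ℝ) • (x + y) := by
      module
    rw [e] at h2
    calc sm μ ε (s - x) * sm μ ε x * (sm μ ε (s - y) * sm μ ε y)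
        = (sm μ ε (s - x) * sm μ ε (s - y)) * (sm μ ε x * sm μ ε y) := by ring
      _ ≤ sm μ ε (s - (1 / 2 : ℝ) • (x + y)) ^ 2 * sm μ ε ((1 / 2 : ℝ) • (x + y)) ^ 2 :=
        mul_le_mul' h2 h1
      _ = _ := by rw [mul_pow])
  rw [huv, ← pow_two] at hpl
  by_contra hlt
  have hlt' := not_le.1 hlt
  have h3 : (∫⁻ y, w y) ^ 2 < (∫⁻ y, u y) ^ 2 := by
    rw [pow_two, pow_two]
    exact ENNReal.mul_lt_mul hlt' hlt'
  exact absurd hpl (not_le.2 h3)

/-- The shear `x = s - y`. -/
lemma shear {F : (Fin n → ℝ) → (Fin n → ℝ) → ℝ≥0∞} (hF : Measurable (Function.uncurry F)) :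
    ∫⁻ x, ∫⁻ y, F x y = ∫⁻ s, ∫⁻ y, F (s - y) y := by
  rw [lintegral_lintegral_swap hF.aemeasurable]
  have h1 : ∀ y, ∫⁻ x, F x y = ∫⁻ s, F (s - y) y := fun y =>
    (lintegral_sub_right_eq_self (fun x => F x y) y).symm
  rw [lintegral_congr h1]
  have hF2 : Measurable (Function.uncurry fun (y s : Fin n → ℝ) => F (s - y) y) := by
    have : (Function.uncurry fun (y s : Fin n → ℝ) => F (s - y) y)
        = (Function.uncurry F) ∘ (fun q : (Fin n → ℝ) × (Fin n → ℝ) => (q.2 - q.1, q.1)) := by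
      funext q
      rfl
    rw [this]
    exact hF.comp ((measurable_snd.sub measurable_fst).prodMk measurable_fst)
  rw [lintegral_lintegral_swap hF2.aemeasurable]

/-- The key inequality for the smoothed law. -/
lemma key_smooth {μ : Measure (Fin n → ℝ)} [SFinite μ] (hμ : LogConcave μ) {ε : ℝ} (hε : 0 ≤ ε)
    {N : (Fin n → ℝ) → ℝ} (hN : SemiN N) (a : ℝ) {G : (Fin n → ℝ) → ℝ≥0∞} (hG : Measurable G) :
    ∫⁻ x, ∫⁻ y, sm μ ε x * (sm μ ε y * (G (x + y) * {y | N y ≤ a}.indicator 1 y))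
      ≤ ∫⁻ x, ∫⁻ y, sm μ ε x * (sm μ ε y *
          (G (x + y) * {q : (Fin n → ℝ) × (Fin n → ℝ) | N (q.1 - q.2) ≤ 2 * a}.indicator 1
            (x, y))) := by
  have hNm := hN.measurable
  have hsm := sm_measurable μ ε
  have hA : MeasurableSet {y : Fin n → ℝ | N y ≤ a} := measurableSet_le hNm measurable_const
  have hD : MeasurableSet {q : (Fin n → ℝ) × (Fin n → ℝ) | N (q.1 - q.2) ≤ 2 * a} :=
    measurableSet_le (hNm.comp (measurable_fst.sub measurable_snd)) measurable_const
  have s1 := shear (F := fun x y => sm μ ε x * (sm μ ε y * (G (x + y) *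
    {y | N y ≤ a}.indicator 1 y))) (by
      refine (hsm.comp measurable_fst).mul ((hsm.comp measurable_snd).mul
        ((hG.comp (measurable_fst.add measurable_snd)).mul ?_))
      exact (measurable_one.indicator hA).comp measurable_snd)
  have s2 := shear (F := fun x y => sm μ ε x * (sm μ ε y * (G (x + y) *
    {q : (Fin n → ℝ) × (Fin n → ℝ) | N (q.1 - q.2) ≤ 2 * a}.indicator 1 (x, y)))) (by
      refine (hsm.comp measurable_fst).mul ((hsm.comp measurable_snd).mul
        ((hG.comp (measurable_fst.add measurable_snd)).mul ?_))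
      exact measurable_one.indicator hD)
  rw [s1, s2]
  refine lintegral_mono fun s => ?_
  have e1 : ∀ y, sm μ ε (s - y) * (sm μ ε y * (G (s - y + y) * {y | N y ≤ a}.indicator 1 y))
      = G s * (sm μ ε (s - y) * sm μ ε y * {y | N y ≤ a}.indicator 1 y) := by
    intro y
    rw [sub_add_cancel]
    ring
  have e2 : ∀ y, sm μ ε (s - y) * (sm μ ε y * (G (s - y + y) *
        {q : (Fin n → ℝ) × (Fin n → ℝ) | N (q.1 - q.2) ≤ 2 * a}.indicator 1 (s - y, y)))
      = G s * (sm μ ε (s - y) * sm μ ε y * {y | N (s - y - y) ≤ 2 * a}.indicator 1 y) := by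
    intro y
    rw [sub_add_cancel]
    have : {q : (Fin n → ℝ) × (Fin n → ℝ) | N (q.1 - q.2) ≤ 2 * a}.indicator
        (1 : (Fin n → ℝ) × (Fin n → ℝ) → ℝ≥0∞) (s - y, y)
        = {y | N (s - y - y) ≤ 2 * a}.indicator (1 : (Fin n → ℝ) → ℝ≥0∞) y := rfl
    rw [this]
    ring
  simp only
  rw [lintegral_congr e1, lintegral_congr e2]
  have hsub : Measurable (fun y : Fin n → ℝ => s - y) := measurable_const.sub measurable_id
  rw [lintegral_const_mul, lintegral_const_mul]
  · exact mul_le_mul_right (fibre hμ hε hN a s) _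
  · refine ((hsm.comp hsub).mul hsm).mul (measurable_one.indicator ?_)
    exact measurableSet_le (hNm.comp (hsub.sub measurable_id)) measurable_const
  · exact ((hsm.comp hsub).mul hsm).mul (measurable_one.indicator hA)

/-- Tonelli for the smoothing. -/
lemma smooth_tonelli (μ : Measure (Fin n → ℝ)) [SFinite μ] (ε : ℝ) {g : (Fin n → ℝ) → ℝ≥0∞}
    (hg : Measurable g) :
    ∫⁻ x, sm μ ε x * g x = ∫⁻ u, (∫⁻ x in Metric.closedBall u ε, g x) ∂μ := by
  have hS := measurableSet_dist_le (n := n) ε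
  have h1 : ∀ x, sm μ ε x * g x = ∫⁻ u, {q : (Fin n → ℝ) × (Fin n → ℝ) |
      dist q.2 q.1 ≤ ε}.indicator 1 (x, u) * g x ∂μ := by
    intro x
    rw [lintegral_mul_const (f := fun u => {q : (Fin n → ℝ) × (Fin n → ℝ) |
      dist q.2 q.1 ≤ ε}.indicator 1 (x, u)) _
      ((measurable_one.indicator hS).comp measurable_prodMk_left)]
    congr 1
    have : ∀ u, {q : (Fin n → ℝ) × (Fin n → ℝ) | dist q.2 q.1 ≤ ε}.indicator
        (1 : (Fin n → ℝ) × (Fin n → ℝ) → ℝ≥0∞) (x, u)
        = (Metric.closedBall x ε).indicator 1 u := fun u => rfl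
    rw [lintegral_congr this, lintegral_indicator_one Metric.isClosed_closedBall.measurableSet]
    rfl
  have h2 : ∀ u, ∫⁻ x in Metric.closedBall u ε, g x = ∫⁻ x, {q : (Fin n → ℝ) × (Fin n → ℝ) |
      dist q.2 q.1 ≤ ε}.indicator 1 (x, u) * g x := by
    intro u
    rw [← lintegral_indicator Metric.isClosed_closedBall.measurableSet]
    refine lintegral_congr fun x => ?_
    by_cases h : dist x u ≤ ε
    · rw [indicator_of_mem (show x ∈ Metric.closedBall u ε from h),
        indicator_of_mem (show (x, u) ∈ {q : (Fin n → ℝ) × (Fin n → ℝ) | dist q.2 q.1 ≤ ε} by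
          show dist u x ≤ ε
          rwa [dist_comm])]
      simp
    · rw [indicator_of_notMem (show x ∉ Metric.closedBall u ε from h),
        indicator_of_notMem (show (x, u) ∉ {q : (Fin n → ℝ) × (Fin n → ℝ) | dist q.2 q.1 ≤ ε} by
          show ¬ dist u x ≤ ε
          rwa [dist_comm])]
      simp
  rw [lintegral_congr h1, lintegral_congr h2, lintegral_lintegral_swap]
  refine Measurable.aemeasurable ?_
  exact (measurable_one.indicator hS).mul (hg.comp measurable_fst)

end Pool.Agent.H85.WSM
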