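import Pool.Agent.H85.WSM.Double

/-!
# Comparison of weak and strong moments of log-concave vectors
-/

set_option autoImplicit false

open MeasureTheory Set
open scoped ENNReal Pointwise

namespace Pool.Agent.H85.WSM

variable {n : ℕ}

/-- A norming functional. -/
lemma norming {N : (Fin n → ℝ) → ℝ} (hN : SemiN N) {u : Fin n → ℝ} (hu : u ≠ 0) :
    ∃ v : Fin n → ℝ, (∀ x, |∑ i, v i * x i| ≤ N x) ∧ ∑ i, v i * u i = N u := by
  classical
  obtain ⟨g, hg1, hg2⟩ := exists_extension_of_le_sublinear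
    (LinearPMap.mkSpanSingleton u (N u) hu) N
    (fun c hc x => by rw [hN.hom, abs_of_pos hc]) hN.add (by
      rintro ⟨x, hx⟩
      obtain ⟨c, rfl⟩ := Submodule.mem_span_singleton.1 hx
      rw [LinearPMap.mkSpanSingleton'_apply]
      simp only [RingHom.id_apply, smul_eq_mul]
      rw [hN.hom]
      exact mul_le_mul_of_nonneg_right (le_abs_self c) (hN.nonneg u))
  have hgu : g u = N u := by
    have := hg1 ⟨u, Submodule.mem_span_singleton_self u⟩
    rw [LinearPMap.mkSpanSingleton_apply] at this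
    exact this
  have hrep : ∀ x : Fin n → ℝ, ∑ i, g (Pi.single i 1) * x i = g x := by
    intro x
    have e : x = ∑ i, x i • (Pi.single i (1 : ℝ) : Fin n → ℝ) := by
      funext j
      simp [Finset.sum_apply, Pi.single_apply]
    conv_rhs => rw [e]
    rw [map_sum]
    refine Finset.sum_congr rfl fun i _ => ?_
    rw [map_smul, smul_eq_mul, mul_comm]
  refine ⟨fun i => g (Pi.single i 1), fun x => ?_, ?_⟩
  · rw [hrep, abs_le]
    refine ⟨?_, hg2 x⟩
    have h1 := hg2 (-x)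
    rw [map_neg, hN.neg] at h1
    linarith
  · rw [hrep, hgu]

/-- The weak moment. -/
noncomputable def weak (μ : Measure (Fin n → ℝ)) (N : (Fin n → ℝ) → ℝ) (p : ℝ) : ℝ≥0∞ :=
  ⨆ v : Fin n → ℝ, ⨆ (_ : ∀ x, |∑ i, v i * x i| ≤ N x),
    (∫⁻ x, ENNReal.ofReal (|∑ i, v i * x i| ^ p) ∂μ) ^ (1 / p)

lemma lint_le_weak {μ : Measure (Fin n → ℝ)} {N : (Fin n → ℝ) → ℝ} {p : ℝ} (hp : 0 < p)
    {v : Fin n → ℝ} (hv : ∀ x, |∑ i, v i * x i| ≤ N x) :
    ∫⁻ x, ENNReal.ofReal (|∑ i, v i * x i| ^ p) ∂μ ≤ weak μ N p ^ p := by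
  rw [← ENNReal.rpow_inv_le_iff hp]
  have h := le_iSup₂_of_le (f := fun (v : Fin n → ℝ) (_ : ∀ x, |∑ i, v i * x i| ≤ N x) =>
    (∫⁻ x, ENNReal.ofReal (|∑ i, v i * x i| ^ p) ∂μ) ^ (1 / p)) v hv le_rfl
  rw [one_div] at h
  rw [weak]
  simpa only [one_div] using h

/-- The pointwise bound. -/
lemma pointwise {μ : Measure (Fin n → ℝ)} [IsProbabilityMeasure μ]
    {N : (Fin n → ℝ) → ℝ} (hN : SemiN N) {m p : ℝ} (hm : 0 < m) (hp : 1 ≤ p) (u : Fin n → ℝ) :
    ENNReal.ofReal ((2 * N u + 3 * (4 * m) + 6 * (m / 4)) ^ p)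
        * μ {v | N (u - v) ≤ 2 * (4 * m) + 4 * (m / 4)}
      ≤ ENNReal.ofReal ((99 / 2 * m) ^ p) + ENNReal.ofReal ((11 / 2) ^ p) * weak μ N p ^ p := by
  have hp0 : 0 < p := by linarith
  have hNu := hN.nonneg u
  rcases lt_or_ge (N u) (18 * m) with h | h
  · refine le_trans ?_ le_self_add
    calc ENNReal.ofReal ((2 * N u + 3 * (4 * m) + 6 * (m / 4)) ^ p)
        * μ {v | N (u - v) ≤ 2 * (4 * m) + 4 * (m / 4)}
        ≤ ENNReal.ofReal ((99 / 2 * m) ^ p) * 1 := by
          refine mul_le_mul' ?_ prob_le_one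
          refine ENNReal.ofReal_le_ofReal (Real.rpow_le_rpow (by linarith) ?_ hp0.le)
          linarith
      _ = _ := mul_one _
  · refine le_trans ?_ le_add_self
    have hu : u ≠ 0 := by
      rintro rfl
      rw [hN.zero] at h
      linarith
    obtain ⟨τ, hτ, hτu⟩ := norming hN hu
    have hsub : {v | N (u - v) ≤ 2 * (4 * m) + 4 * (m / 4)}
        ⊆ {v | ENNReal.ofReal ((N u / 2) ^ p) ≤ ENNReal.ofReal (|∑ i, τ i * v i| ^ p)} := by
      intro v hv
      have hv' : N (u - v) ≤ 2 * (4 * m) + 4 * (m / 4) := hv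
      show ENNReal.ofReal ((N u / 2) ^ p) ≤ ENNReal.ofReal (|∑ i, τ i * v i| ^ p)
      refine ENNReal.ofReal_le_ofReal (Real.rpow_le_rpow (by linarith) ?_ hp0.le)
      have h1 := hτ (u - v)
      have e : ∑ i, τ i * (u - v) i = N u - ∑ i, τ i * v i := by
        rw [← hτu, ← Finset.sum_sub_distrib]
        refine Finset.sum_congr rfl fun i _ => ?_
        rw [Pi.sub_apply]
        ring
      rw [e] at h1
      have h2 := (abs_le.1 h1).2
      have h3 := le_abs_self (∑ i, τ i * v i)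
      linarith
    have hmeas : Measurable fun v : Fin n → ℝ => ENNReal.ofReal (|∑ i, τ i * v i| ^ p) := by
      refine Measurable.ennreal_ofReal (Measurable.pow_const (Measurable.abs ?_) p)
      exact Finset.measurable_sum _ fun i _ => (measurable_pi_apply i).const_mul _
    have hmk := mul_meas_ge_le_lintegral (μ := μ) hmeas (ENNReal.ofReal ((N u / 2) ^ p))
    calc ENNReal.ofReal ((2 * N u + 3 * (4 * m) + 6 * (m / 4)) ^ p)
        * μ {v | N (u - v) ≤ 2 * (4 * m) + 4 * (m / 4)}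
        ≤ (ENNReal.ofReal ((11 / 2) ^ p) * ENNReal.ofReal ((N u / 2) ^ p))
          * μ {v | ENNReal.ofReal ((N u / 2) ^ p) ≤ ENNReal.ofReal (|∑ i, τ i * v i| ^ p)} := by
          refine mul_le_mul' ?_ (measure_mono hsub)
          rw [← ENNReal.ofReal_mul (by positivity), ← Real.mul_rpow (by norm_num) (by linarith)]
          refine ENNReal.ofReal_le_ofReal (Real.rpow_le_rpow (by linarith) ?_ hp0.le)
          linarith
      _ = ENNReal.ofReal ((11 / 2) ^ p) * (ENNReal.ofReal ((N u / 2) ^ p)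
          * μ {v | ENNReal.ofReal ((N u / 2) ^ p) ≤ ENNReal.ofReal (|∑ i, τ i * v i| ^ p)}) := by
          rw [mul_assoc]
      _ ≤ ENNReal.ofReal ((11 / 2) ^ p) * weak μ N p ^ p := by
          refine mul_le_mul_right (le_trans hmk (lint_le_weak hp0 hτ)) _

/-- Comparison of weak and strong moments. -/
theorem main {μ : Measure (Fin n → ℝ)} [IsProbabilityMeasure μ] (hμ : LogConcave μ)
    {N : (Fin n → ℝ) → ℝ} (hN : SemiN N) {p : ℝ} (hp : 1 ≤ p) :
    (∫⁻ x, ENNReal.ofReal (N x ^ p) ∂μ) ^ (1 / p) ≤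
      ENNReal.ofReal 99 * ((∫⁻ x, ENNReal.ofReal (N x) ∂μ) + weak μ N p) := by
  have hp0 : 0 < p := by linarith
  have hNm := hN.measurable
  set M : ℝ≥0∞ := ∫⁻ x, ENNReal.ofReal (N x) ∂μ with hM
  rcases eq_or_ne M ∞ with hMt | hMt
  · rw [hMt, top_add, ENNReal.mul_top (by norm_num)]
    exact le_top
  rcases eq_or_ne M 0 with hM0 | hM0
  · have h0 : (fun x => ENNReal.ofReal (N x)) =ᵐ[μ] 0 :=
      (lintegral_eq_zero_iff hNm.ennreal_ofReal).1 hM0
    have h1 : ∫⁻ x, ENNReal.ofReal (N x ^ p) ∂μ = 0 := by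
      rw [lintegral_eq_zero_iff (hNm.pow_const p).ennreal_ofReal]
      filter_upwards [h0] with x hx
      have hx' : N x ≤ 0 := ENNReal.ofReal_eq_zero.1 hx
      have hx0 : N x = 0 := le_antisymm hx' (hN.nonneg x)
      rw [hx0, Real.zero_rpow hp0.ne', ENNReal.ofReal_zero]
      rfl
    rw [h1, ENNReal.zero_rpow_of_pos (by positivity)]
    exact zero_le
  set m : ℝ := M.toReal with hm
  have hmpos : 0 < m := ENNReal.toReal_pos hM0 hMt
  have hMm : M = ENNReal.ofReal m := (ENNReal.ofReal_toReal hMt).symm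
  set L : ℝ≥0∞ := ∫⁻ x, ENNReal.ofReal (N x ^ p) ∂μ with hL
  set R : ℝ≥0∞ := ENNReal.ofReal ((99 / 2 * m) ^ p)
    + ENNReal.ofReal ((11 / 2) ^ p) * weak μ N p ^ p with hR
  have hd : L * μ {x | N x ≤ 4 * m} ≤ R := by
    refine le_trans (double hμ hN (a := 4 * m) (δ := m / 4) (p := p) (by positivity)
      (by positivity) hp0.le) ?_
    refine le_trans (lintegral_mono fun u => pointwise hN hmpos hp u) ?_
    rw [lintegral_const, measure_univ, mul_one]
  -- Markov
  have hmk : 4 * μ {x | 4 * m ≤ N x} ≤ 1 := by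
    have h1 := mul_meas_ge_le_lintegral (μ := μ) hNm.ennreal_ofReal (ENNReal.ofReal (4 * m))
    rw [← hM, hMm] at h1
    have h2 : {x | 4 * m ≤ N x} ⊆ {x | ENNReal.ofReal (4 * m) ≤ ENNReal.ofReal (N x)} :=
      fun x hx => ENNReal.ofReal_le_ofReal hx
    have h3 : ENNReal.ofReal (4 * m) * μ {x | 4 * m ≤ N x} ≤ ENNReal.ofReal m :=
      le_trans (mul_le_mul_right (measure_mono h2) _) h1
    have h4 : ENNReal.ofReal m * (4 * μ {x | 4 * m ≤ N x}) ≤ ENNReal.ofReal m * 1 := by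
      rw [mul_one]
      refine le_trans (le_of_eq ?_) h3
      rw [ENNReal.ofReal_mul (by norm_num), ENNReal.ofReal_ofNat]
      ring
    exact (ENNReal.mul_le_mul_iff_right (by simpa using hmpos) ENNReal.ofReal_ne_top).1 h4
  have h3 : 3 ≤ 4 * μ {x | N x ≤ 4 * m} := by
    have h1 : (1 : ℝ≥0∞) ≤ μ {x | N x ≤ 4 * m} + μ {x | 4 * m ≤ N x} := by
      rw [← measure_univ (μ := μ)]
      refine le_trans (measure_mono ?_) (measure_union_le _ _)
      intro x _
      rcases le_total (N x) (4 * m) with h | h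
      · exact Or.inl h
      · exact Or.inr h
    have h2 : (3 : ℝ≥0∞) + 1 ≤ 4 * μ {x | N x ≤ 4 * m} + 1 := by
      calc (3 : ℝ≥0∞) + 1 = 4 * 1 := by norm_num
        _ ≤ 4 * (μ {x | N x ≤ 4 * m} + μ {x | 4 * m ≤ N x}) := mul_le_mul_right h1 _
        _ = 4 * μ {x | N x ≤ 4 * m} + 4 * μ {x | 4 * m ≤ N x} := mul_add _ _ _
        _ ≤ _ := by gcongr
    exact (ENNReal.add_le_add_iff_right ENNReal.one_ne_top).1 h2
  have hLR : L ≤ 2 * R := by
    have h5 : 3 * L ≤ 3 * (2 * R) := by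
      calc 3 * L ≤ (4 * μ {x | N x ≤ 4 * m}) * L := mul_le_mul_left h3 _
        _ = 4 * (L * μ {x | N x ≤ 4 * m}) := by ring
        _ ≤ 4 * R := mul_le_mul_right hd _
        _ ≤ 6 * R := mul_le_mul_left (by norm_num) _
        _ = 3 * (2 * R) := by
          rw [← mul_assoc]
          norm_num
    exact (ENNReal.mul_le_mul_iff_right (by norm_num) (by norm_num)).1 h5
  have h2p : (2 : ℝ≥0∞) ≤ 2 ^ p := by
    calc (2 : ℝ≥0∞) = 2 ^ (1 : ℝ) := (ENNReal.rpow_one 2).symm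
      _ ≤ 2 ^ p := ENNReal.rpow_le_rpow_of_exponent_le (by norm_num) hp
  have hR2 : 2 * R ≤ (ENNReal.ofReal 99 * (M + weak μ N p)) ^ p := by
    have hX : ENNReal.ofReal ((99 / 2 * m) ^ p) = (ENNReal.ofReal (99 / 2) * M) ^ p := by
      rw [hMm, ← ENNReal.ofReal_mul (by norm_num),
        ENNReal.ofReal_rpow_of_nonneg (by positivity) hp0.le]
    have hY : ENNReal.ofReal ((11 / 2) ^ p) * weak μ N p ^ p
        = (ENNReal.ofReal (11 / 2) * weak μ N p) ^ p := by
      rw [ENNReal.mul_rpow_of_nonneg _ _ hp0.le,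
        ENNReal.ofReal_rpow_of_nonneg (by norm_num) hp0.le]
    calc 2 * R ≤ 2 ^ p * R := mul_le_mul_left h2p _
      _ = 2 ^ p * (ENNReal.ofReal (99 / 2) * M) ^ p
          + 2 ^ p * (ENNReal.ofReal (11 / 2) * weak μ N p) ^ p := by
        rw [hR, hX, hY, mul_add]
      _ = (2 * (ENNReal.ofReal (99 / 2) * M)) ^ p
          + (2 * (ENNReal.ofReal (11 / 2) * weak μ N p)) ^ p := by
        rw [ENNReal.mul_rpow_of_nonneg 2 _ hp0.le, ENNReal.mul_rpow_of_nonneg 2 _ hp0.le]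
      _ ≤ (2 * (ENNReal.ofReal (99 / 2) * M)
          + 2 * (ENNReal.ofReal (11 / 2) * weak μ N p)) ^ p :=
        ENNReal.add_rpow_le_rpow_add _ _ hp
      _ ≤ (ENNReal.ofReal 99 * (M + weak μ N p)) ^ p := by
        refine ENNReal.rpow_le_rpow ?_ hp0.le
        have e1 : 2 * (ENNReal.ofReal (99 / 2) * M) = ENNReal.ofReal 99 * M := by
          rw [← mul_assoc, ← ENNReal.ofReal_ofNat, ← ENNReal.ofReal_mul (by norm_num)]
          norm_num
        have e2 : 2 * (ENNReal.ofReal (11 / 2) * weak μ N p)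
            ≤ ENNReal.ofReal 99 * weak μ N p := by
          rw [← mul_assoc, ← ENNReal.ofReal_ofNat, ← ENNReal.ofReal_mul (by norm_num)]
          refine mul_le_mul_left (ENNReal.ofReal_le_ofReal (by norm_num)) _
        rw [e1, mul_add]
        gcongr
  rw [one_div, ENNReal.rpow_inv_le_iff hp0]
  exact le_trans hLR hR2

end Pool.Agent.H85.WSM
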