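import Mathlib

/-!
# The midpoint inequality of Prekopa and Leindler in dimension one
-/

set_option autoImplicit false

open MeasureTheory Set
open scoped ENNReal

namespace Pool.Agent.H85.WSM

/-- The compact case of the one-dimensional Brunn-Minkowski inequality. -/
private lemma bm_compact {A B C : Set ℝ} (hA : IsCompact A) (hB : IsCompact B)
    (hA0 : A.Nonempty) (hB0 : B.Nonempty)
    (hC : ∀ a ∈ A, ∀ b ∈ B, (a + b) / 2 ∈ C) :
    volume A + volume B ≤ 2 * volume C := by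
  obtain ⟨a0, ha0, hamax⟩ := hA.exists_isGreatest hA0
  obtain ⟨b0, hb0, hbmin⟩ := hB.exists_isLeast hB0
  set S : Set ℝ := (fun c : ℝ => 2 * c) ⁻¹' ((fun x : ℝ => x + (-b0)) ⁻¹' A) with hS
  set T : Set ℝ := (fun c : ℝ => 2 * c) ⁻¹' ((fun x : ℝ => x + (-a0)) ⁻¹' B) with hT
  have hSv : volume S = ENNReal.ofReal (1 / 2) * volume A := by
    rw [hS, Real.volume_preimage_mul_left (by norm_num : (2 : ℝ) ≠ 0),
      measure_preimage_add_right]
    norm_num
  have hTv : volume T = ENNReal.ofReal (1 / 2) * volume B := by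
    rw [hT, Real.volume_preimage_mul_left (by norm_num : (2 : ℝ) ≠ 0),
      measure_preimage_add_right]
    norm_num
  have hTm : MeasurableSet T := by
    rw [hT]
    exact ((hB.isClosed.measurableSet.preimage (measurable_id.add_const _))).preimage
      (measurable_const.mul measurable_id)
  have hSC : S ⊆ C := by
    intro c hc
    have hc' : 2 * c + (-b0) ∈ A := hc
    have h := hC _ hc' b0 hb0
    have e : (2 * c + (-b0) + b0) / 2 = c := by ring
    rwa [e] at h
  have hTC : T ⊆ C := by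
    intro c hc
    have hc' : 2 * c + (-a0) ∈ B := hc
    have h := hC a0 ha0 _ hc'
    have e : (a0 + (2 * c + (-a0))) / 2 = c := by ring
    rwa [e] at h
  have hinter : S ∩ T ⊆ {(a0 + b0) / 2} := by
    rintro c ⟨h1, h2⟩
    have h1' : 2 * c + (-b0) ≤ a0 := hamax h1
    have h2' : b0 ≤ 2 * c + (-a0) := hbmin h2
    have : c = (a0 + b0) / 2 := by linarith
    rw [this]
    rfl
  have hinter0 : volume (S ∩ T) = 0 := by
    refine measure_mono_null hinter ?_
    exact Real.volume_singleton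
  have h1 : volume S + volume T = volume (S ∪ T) := by
    rw [← measure_union_add_inter S hTm, hinter0, add_zero]
  have h2 : volume (S ∪ T) ≤ volume C := measure_mono (union_subset hSC hTC)
  have h3 : ENNReal.ofReal (1 / 2) * volume A + ENNReal.ofReal (1 / 2) * volume B
      ≤ volume C := by
    rw [← hSv, ← hTv, h1]; exact h2
  have h4 : (2 : ℝ≥0∞) * ENNReal.ofReal (1 / 2) = 1 := by
    rw [← ENNReal.ofReal_ofNat, ← ENNReal.ofReal_mul (by norm_num)]
    norm_num
  calc volume A + volume B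
      = 2 * ENNReal.ofReal (1 / 2) * volume A + 2 * ENNReal.ofReal (1 / 2) * volume B := by
        rw [h4, one_mul, one_mul]
    _ = 2 * (ENNReal.ofReal (1 / 2) * volume A + ENNReal.ofReal (1 / 2) * volume B) := by ring
    _ ≤ 2 * volume C := by gcongr

/-- The one-dimensional Brunn-Minkowski inequality in midpoint form. -/
lemma bm_one {A B C : Set ℝ} (hA : MeasurableSet A) (hB : MeasurableSet B)
    (hA0 : A.Nonempty) (hB0 : B.Nonempty)
    (hC : ∀ a ∈ A, ∀ b ∈ B, (a + b) / 2 ∈ C) :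
    volume A + volume B ≤ 2 * volume C := by
  have key : ∀ K ⊆ A, IsCompact K → ∀ L ⊆ B, IsCompact L →
      volume K + volume L ≤ 2 * volume C := by
    intro K hKA hK L hLB hL
    obtain ⟨a, ha⟩ := hA0
    obtain ⟨b, hb⟩ := hB0
    have h := bm_compact (A := insert a K) (B := insert b L) (C := C) (hK.insert a) (hL.insert b)
      (insert_nonempty _ _) (insert_nonempty _ _) (by
        intro x hx y hy
        exact hC x (insert_subset ha hKA hx) y (insert_subset hb hLB hy))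
    refine le_trans (add_le_add (measure_mono (subset_insert _ _))
      (measure_mono (subset_insert _ _))) h
  have step1 : ∀ K ⊆ A, IsCompact K → volume K + volume B ≤ 2 * volume C := by
    intro K hKA hK
    rw [hB.measure_eq_iSup_isCompact, iSup_congr (fun L => (iSup_and' : _ = _)), iSup_subtype']
    have : Nonempty {L : Set ℝ // L ⊆ B ∧ IsCompact L} := ⟨⟨∅, empty_subset _, isCompact_empty⟩⟩
    rw [ENNReal.add_iSup]
    exact iSup_le fun L => key K hKA hK L.1 L.2.1 L.2.2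
  rw [hA.measure_eq_iSup_isCompact, iSup_congr (fun L => (iSup_and' : _ = _)), iSup_subtype']
  have : Nonempty {L : Set ℝ // L ⊆ A ∧ IsCompact L} := ⟨⟨∅, empty_subset _, isCompact_empty⟩⟩
  rw [ENNReal.iSup_add]
  exact iSup_le fun L => step1 L.1 L.2.1 L.2.2

/-- Layer cake for `[0, 1]`-valued functions. -/
private lemma layer {f : ℝ → ℝ≥0∞} (hf : Measurable f) (h1 : ∀ x, f x ≤ 1) :
    ∫⁻ x, f x = ∫⁻ t in Ioo (0 : ℝ) 1, volume {x | ENNReal.ofReal t < f x} := by
  have hfin : ∀ x, f x ≠ ∞ := fun x => ne_top_of_le_ne_top ENNReal.one_ne_top (h1 x)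
  have e1 : ∫⁻ x, f x = ∫⁻ x, ENNReal.ofReal ((f x).toReal) := by
    refine lintegral_congr fun x => ?_
    rw [ENNReal.ofReal_toReal (hfin x)]
  rw [e1, lintegral_eq_lintegral_meas_lt volume
    (Filter.Eventually.of_forall fun x => ENNReal.toReal_nonneg)
    hf.ennreal_toReal.aemeasurable]
  have e2 : ∀ t ∈ Ioi (0 : ℝ), volume {x | t < (f x).toReal}
      = (Ioo (0 : ℝ) 1).indicator (fun t => volume {x | ENNReal.ofReal t < f x}) t := by
    intro t ht
    by_cases h : t < 1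
    · rw [indicator_of_mem (show t ∈ Ioo (0 : ℝ) 1 from ⟨ht, h⟩)]
      congr 1
      ext x
      simp only [mem_ofPred_eq]
      rw [ENNReal.ofReal_lt_iff_lt_toReal (le_of_lt ht) (hfin x)]
    · rw [indicator_of_notMem (fun h' => h h'.2)]
      have : {x | t < (f x).toReal} = ∅ := by
        ext x
        simp only [mem_ofPred_eq, mem_empty_iff_false, iff_false, not_lt]
        have h3 : (f x).toReal ≤ 1 := by
          have := ENNReal.toReal_mono ENNReal.one_ne_top (h1 x)
          simpa using this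
        linarith
      rw [this, measure_empty]
  rw [setLIntegral_congr_fun measurableSet_Ioi e2, ← lintegral_indicator measurableSet_Ioi,
    ← lintegral_indicator measurableSet_Ioo]
  refine lintegral_congr fun t => ?_
  by_cases h : t ∈ Ioo (0 : ℝ) 1
  · rw [indicator_of_mem (show t ∈ Ioi (0 : ℝ) from h.1), indicator_of_mem h]
  · by_cases h' : t ∈ Ioi (0 : ℝ)
    · rw [indicator_of_mem h', indicator_of_notMem h]
    · rw [indicator_of_notMem h', indicator_of_notMem h]

/-- One-dimensional inequality for functions with supremum one. -/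
private lemma pl_sup_one {u v w : ℝ → ℝ≥0∞} (hu : Measurable u) (hv : Measurable v)
    (hw : Measurable w) (hu1 : ⨆ x, u x = 1) (hv1 : ⨆ x, v x = 1)
    (h : ∀ x y, u x * v y ≤ w ((x + y) / 2) ^ 2) :
    (∫⁻ x, u x) + (∫⁻ x, v x) ≤ 2 * ∫⁻ x, w x := by
  have hW : ∫⁻ x, min (w x) 1 ≤ ∫⁻ x, w x := lintegral_mono fun x => min_le_left _ _
  refine le_trans ?_ (mul_le_mul_right hW 2)
  rw [layer hu (fun x => hu1 ▸ le_iSup u x), layer hv (fun x => hv1 ▸ le_iSup v x),
    layer (hw.min measurable_const) (fun x => min_le_right _ _),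
    ← lintegral_const_mul' _ _ (by norm_num)]
  refine le_trans (le_lintegral_add _ _) ?_
  refine setLIntegral_mono' measurableSet_Ioo fun t ht => ?_
  have ht1 : ENNReal.ofReal t < 1 := by
    rw [← ENNReal.ofReal_one]
    exact (ENNReal.ofReal_lt_ofReal_iff (by norm_num)).2 ht.2
  refine bm_one (measurableSet_lt measurable_const hu) (measurableSet_lt measurable_const hv)
    ?_ ?_ ?_
  · rw [← hu1] at ht1
    obtain ⟨x, hx⟩ := lt_iSup_iff.1 ht1
    exact ⟨x, hx⟩
  · rw [← hv1] at ht1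
    obtain ⟨x, hx⟩ := lt_iSup_iff.1 ht1
    exact ⟨x, hx⟩
  · intro x hx y hy
    have hx' : ENNReal.ofReal t < u x := hx
    have hy' : ENNReal.ofReal t < v y := hy
    have h2 : ENNReal.ofReal t ^ 2 < w ((x + y) / 2) ^ 2 := by
      refine lt_of_lt_of_le ?_ (h x y)
      rw [pow_two]
      exact ENNReal.mul_lt_mul hx' hy'
    have h3 : ENNReal.ofReal t < w ((x + y) / 2) := by
      by_contra hle
      exact absurd (pow_le_pow_left₀ zero_le (not_lt.1 hle) 2) (not_le.2 h2)
    exact lt_min h3 ht1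

private lemma four_mul_le (a b : ℝ≥0∞) : 4 * (a * b) ≤ (a + b) ^ 2 := by
  by_cases ha : a = ∞
  · subst ha
    simp
  by_cases hb : b = ∞
  · subst hb
    simp
  lift a to NNReal using ha
  lift b to NNReal using hb
  have : (4 : NNReal) * (a * b) ≤ (a + b) ^ 2 := by
    have h := four_mul_le_sq_add a b
    calc (4 : NNReal) * (a * b) = 4 * a * b := by ring
      _ ≤ (a + b) ^ 2 := h
  exact_mod_cast this

/-- One-dimensional inequality for bounded functions. -/
private lemma pl_bdd {u v w : ℝ → ℝ≥0∞} (hu : Measurable u) (hv : Measurable v)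
    (hw : Measurable w) (hu1 : ⨆ x, u x ≠ ∞) (hv1 : ⨆ x, v x ≠ ∞)
    (h : ∀ x y, u x * v y ≤ w ((x + y) / 2) ^ 2) :
    (∫⁻ x, u x) * (∫⁻ x, v x) ≤ (∫⁻ x, w x) ^ 2 := by
  set a := ⨆ x, u x with ha
  set b := ⨆ x, v x with hb
  by_cases ha0 : a = 0
  · have : ∀ x, u x = 0 := by
      intro x
      have : u x ≤ a := le_iSup u x
      rw [ha0] at this
      exact le_antisymm this zero_le
    simp [this]
  by_cases hb0 : b = 0
  · have : ∀ x, v x = 0 := by
      intro x
      have : v x ≤ b := le_iSup v x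
      rw [hb0] at this
      exact le_antisymm this zero_le
    simp [this]
  set c : ℝ≥0∞ := (a * b) ^ (1 / 2 : ℝ) with hc
  have hc2 : c ^ 2 = a * b := by
    rw [hc, ← ENNReal.rpow_natCast, ← ENNReal.rpow_mul]
    norm_num
  have hab0 : a * b ≠ 0 := mul_ne_zero ha0 hb0
  have habt : a * b ≠ ∞ := ENNReal.mul_ne_top hu1 hv1
  have hinv : a⁻¹ * b⁻¹ = (c⁻¹) ^ 2 := by
    rw [← ENNReal.mul_inv (Or.inl ha0) (Or.inl hu1), ← hc2, ENNReal.inv_pow]
  have h1 := pl_sup_one (u := fun x => a⁻¹ * u x) (v := fun x => b⁻¹ * v x)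
    (w := fun x => c⁻¹ * w x) (hu.const_mul _) (hv.const_mul _) (hw.const_mul _)
    (by rw [← ENNReal.mul_iSup, ← ha, ENNReal.inv_mul_cancel ha0 hu1])
    (by rw [← ENNReal.mul_iSup, ← hb, ENNReal.inv_mul_cancel hb0 hv1])
    (by
      intro x y
      calc a⁻¹ * u x * (b⁻¹ * v y) = (a⁻¹ * b⁻¹) * (u x * v y) := by ring
        _ ≤ (c⁻¹) ^ 2 * w ((x + y) / 2) ^ 2 := by
          rw [hinv]
          exact mul_le_mul_right (h x y) _
        _ = (c⁻¹ * w ((x + y) / 2)) ^ 2 := by rw [mul_pow])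
  rw [lintegral_const_mul _ hu, lintegral_const_mul _ hv, lintegral_const_mul _ hw] at h1
  have h2 : 4 * (a⁻¹ * (∫⁻ x, u x) * (b⁻¹ * ∫⁻ x, v x)) ≤ (2 * (c⁻¹ * ∫⁻ x, w x)) ^ 2 :=
    le_trans (four_mul_le _ _) (pow_le_pow_left₀ zero_le h1 2)
  have h3 : 4 * ((a * b)⁻¹ * ((∫⁻ x, u x) * (∫⁻ x, v x)))
      ≤ 4 * ((a * b)⁻¹ * (∫⁻ x, w x) ^ 2) := by
    have e1 : 4 * ((a * b)⁻¹ * ((∫⁻ x, u x) * (∫⁻ x, v x)))
        = 4 * (a⁻¹ * (∫⁻ x, u x) * (b⁻¹ * ∫⁻ x, v x)) := by
      rw [ENNReal.mul_inv (Or.inl ha0) (Or.inl hu1)]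
      ring
    have e2 : (2 * (c⁻¹ * ∫⁻ x, w x)) ^ 2 = 4 * ((a * b)⁻¹ * (∫⁻ x, w x) ^ 2) := by
      rw [mul_pow, mul_pow, ← hinv, ENNReal.mul_inv (Or.inl ha0) (Or.inl hu1)]
      norm_num
    rw [e1, ← e2]
    exact h2
  have h4 : (a * b)⁻¹ * ((∫⁻ x, u x) * (∫⁻ x, v x)) ≤ (a * b)⁻¹ * (∫⁻ x, w x) ^ 2 :=
    (ENNReal.mul_le_mul_iff_right (by norm_num) (by norm_num)).1 h3
  exact (ENNReal.mul_le_mul_iff_right (ENNReal.inv_ne_zero.2 habt)
    (ENNReal.inv_ne_top.2 hab0)).1 h4

private lemma iSup_min_nat (u : ℝ → ℝ≥0∞) (x : ℝ) : ⨆ k : ℕ, min (u x) (k : ℝ≥0∞) = u x := by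
  rw [← inf_iSup_eq, ENNReal.iSup_natCast, inf_top_eq]

private lemma lint_trunc {u : ℝ → ℝ≥0∞} (hu : Measurable u) :
    ∫⁻ x, u x = ⨆ k : ℕ, ∫⁻ x, min (u x) (k : ℝ≥0∞) := by
  rw [← lintegral_iSup (fun k => hu.min measurable_const)
    (fun i j hij x => min_le_min_left _ (by exact_mod_cast hij))]
  exact lintegral_congr fun x => (iSup_min_nat u x).symm

/-- The midpoint inequality of Prekopa and Leindler in dimension one. -/
lemma pl_one {u v w : ℝ → ℝ≥0∞} (hu : Measurable u) (hv : Measurable v)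
    (hw : Measurable w) (h : ∀ x y, u x * v y ≤ w ((x + y) / 2) ^ 2) :
    (∫⁻ x, u x) * (∫⁻ x, v x) ≤ (∫⁻ x, w x) ^ 2 := by
  rw [lint_trunc hu, lint_trunc hv, ENNReal.iSup_mul]
  refine iSup_le fun k => ?_
  rw [ENNReal.mul_iSup]
  refine iSup_le fun l => ?_
  refine pl_bdd (hu.min measurable_const) (hv.min measurable_const) hw ?_ ?_ ?_
  · exact ne_top_of_le_ne_top (ENNReal.natCast_ne_top k) (iSup_le fun x => min_le_right _ _)
  · exact ne_top_of_le_ne_top (ENNReal.natCast_ne_top l) (iSup_le fun x => min_le_right _ _)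
  · intro x y
    exact le_trans (mul_le_mul' (min_le_left _ _) (min_le_left _ _)) (h x y)

end Pool.Agent.H85.WSM
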