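import Pool.Agent.H85.WSM.OneDim

/-!
# The midpoint inequality of Prekopa and Leindler in dimension n
-/

set_option autoImplicit false

open MeasureTheory Set
open scoped ENNReal

namespace Pool.Agent.H85.WSM

/-- Fubini for the first coordinate. -/
private lemma lint_succ {n : ℕ} {f : (Fin (n + 1) → ℝ) → ℝ≥0∞} (hf : Measurable f) :
    ∫⁻ x, f x = ∫⁻ a : ℝ, ∫⁻ z : Fin n → ℝ, f (Fin.cons a z) := by
  have hmp := volume_preserving_piFinSuccAbove (fun _ : Fin (n + 1) => ℝ) 0
  have h1 : ∫⁻ x, f x = ∫⁻ q : ℝ × (Fin n → ℝ), f (Fin.cons q.1 q.2) := by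
    rw [← hmp.symm.lintegral_comp hf]
    refine lintegral_congr fun q => ?_
    congr 1
    exact (Fin.insertNth_zero' q.1 q.2)
  rw [h1]
  have hm : Measurable (fun q : ℝ × (Fin n → ℝ) => f (Fin.cons q.1 q.2)) := by
    have : (fun q : ℝ × (Fin n → ℝ) => f (Fin.cons q.1 q.2))
        = f ∘ (MeasurableEquiv.piFinSuccAbove (fun _ : Fin (n + 1) => ℝ) 0).symm := by
      funext q
      simp only [Function.comp]
      congr 1
      exact (Fin.insertNth_zero' q.1 q.2).symm
    rw [this]
    exact hf.comp (MeasurableEquiv.measurable _)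
  exact lintegral_prod _ hm.aemeasurable

private lemma meas_cons {n : ℕ} {f : (Fin (n + 1) → ℝ) → ℝ≥0∞} (hf : Measurable f) :
    Measurable (fun q : ℝ × (Fin n → ℝ) => f (Fin.cons q.1 q.2)) := by
  have : (fun q : ℝ × (Fin n → ℝ) => f (Fin.cons q.1 q.2))
      = f ∘ (MeasurableEquiv.piFinSuccAbove (fun _ : Fin (n + 1) => ℝ) 0).symm := by
    funext q
    simp only [Function.comp]
    congr 1
    exact (Fin.insertNth_zero' q.1 q.2).symm
  rw [this]
  exact hf.comp (MeasurableEquiv.measurable _)

/-- The midpoint inequality of Prekopa and Leindler. -/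
theorem pl (n : ℕ) : ∀ {u v w : (Fin n → ℝ) → ℝ≥0∞}, Measurable u → Measurable v →
    Measurable w → (∀ x y, u x * v y ≤ w ((1 / 2 : ℝ) • (x + y)) ^ 2) →
    (∫⁻ x, u x) * (∫⁻ x, v x) ≤ (∫⁻ x, w x) ^ 2 := by
  induction n with
  | zero =>
    intro u v w hu hv hw h
    rw [lintegral_unique, lintegral_unique, lintegral_unique]
    have hvol : (volume : Measure (Fin 0 → ℝ)) univ = 1 := by
      rw [volume_pi, Measure.pi_univ]
      simp
    rw [hvol, mul_one, mul_one, mul_one]
    have e : ∀ x y z : Fin 0 → ℝ, u x * v y ≤ w z ^ 2 := by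
      intro x y z
      have hz : (1 / 2 : ℝ) • (x + y) = z := Subsingleton.elim _ _
      rw [← hz]
      exact h x y
    exact e _ _ _
  | succ n ih =>
    intro u v w hu hv hw h
    rw [lint_succ hu, lint_succ hv, lint_succ hw]
    refine pl_one (meas_cons hu).lintegral_prod_right' (meas_cons hv).lintegral_prod_right'
      (meas_cons hw).lintegral_prod_right' ?_
    intro a b
    refine ih ((meas_cons hu).comp measurable_prodMk_left)
      ((meas_cons hv).comp measurable_prodMk_left)
      ((meas_cons hw).comp measurable_prodMk_left) ?_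
    intro x y
    have := h (Fin.cons a x) (Fin.cons b y)
    refine le_trans this (le_of_eq ?_)
    congr 2
    funext i
    refine Fin.cases ?_ (fun j => ?_) i
    · simp [Fin.cons_zero]
      ring
    · simp [Fin.cons_succ]
      ring

end Pool.Agent.H85.WSM
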